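import Mathlib
import Pool.Agent.H735EL.Main

set_option autoImplicit false

namespace Pool.Agent.Results.MP_f3f922_nt.AlmostAllTwists

/-- Correlations of character twists. For distinct shifts `h_1, ..., h_k`, arbitrary weights
`c_{S,T}` bounded by `1`, `x ≥ 1`, `ε > 0` and every prime `r > (x + h_1 + ... + h_k)^k`: for all
characters `χ` modulo `r` except at most `4^k k r / (ε² x)` of them, one has
`|∑_{n ≤ x} c_{S,T}(n) ∏_{j ∈ S} χ(n + h_j) ∏_{j ∈ T} conj χ(n + h_j)| ≤ ε x`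
for all disjoint `S`, `T`, not both empty. (With `c_{S,T}(n) = ∏_j f_j(n + h_j)` these are the
correlations of tuples in which `f_j` is twisted by `χ` for `j ∈ S` and by its conjugate for
`j ∈ T`.) -/
theorem result :
    ∀ (k : ℕ) (h : Fin k → ℕ), Function.Injective h →
      ∀ c : Finset (Fin k) → Finset (Fin k) → ℕ → ℂ, (∀ S T n, ‖c S T n‖ ≤ 1) →
      ∀ x : ℕ, 1 ≤ x → ∀ ε : ℝ, 0 < ε → ∀ r : ℕ, r.Prime → (x + ∑ j, h j) ^ k < r →
        ({χ : DirichletCharacter ℂ r | ∃ S T : Finset (Fin k), Disjoint S T ∧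
            (S ∪ T).Nonempty ∧
            ε * x < ‖∑ n ∈ Finset.Icc 1 x, c S T n *
              ((∏ j ∈ S, χ ((n + h j : ℕ) : ZMod r)) *
                ∏ j ∈ T, (starRingEnd ℂ) (χ ((n + h j : ℕ) : ZMod r)))‖}.ncard : ℝ)
          ≤ 4 ^ k * k * r / (ε ^ 2 * x) :=
  fun k h hinj c hc x hx ε hε r hr hrx =>
    Pool.Agent.H735EL.main_count k h hinj c hc x hx ε hε r hr hrx

end Pool.Agent.Results.MP_f3f922_nt.AlmostAllTwists
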