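import Mathlib
import Pool.Agent.H735EL.High

set_option autoImplicit false

namespace Pool.Agent.Results.MP_f3f922_nt.FamiliesOfTwists

/-- Square-root cancellation, simultaneously for polynomially large families, for all but `x^(-B)`
of the character twists. For every `k`, `A ≥ 0`, `δ > 0`, `B > 0` there are `K` and `m` such that
for `x ≥ 1`, `H ≤ x^A`, any family of at most `x^A` pairs (weight `c_i` bounded by `1`, shifts
`h_{i,1}, ..., h_{i,k} ≤ H`) and every prime `r > (x + H)^m`: for all characters `χ` modulo `r`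
except at most `K r x^(-B)` of them,
`|∑_{n ≤ x} c_i(n) ∏_{j ∈ S} χ(n + h_{i,j})| ≤ x^(1/2 + δ)` for all `i` and all nonempty `S`. -/
theorem result :
    ∀ (k : ℕ) (A δ B : ℝ), 0 ≤ A → 0 < δ → 0 < B →
      ∃ K : ℝ, ∃ m : ℕ, ∀ x H W : ℕ, 1 ≤ x → (H : ℝ) ≤ (x : ℝ) ^ A → (W : ℝ) ≤ (x : ℝ) ^ A →
        ∀ c : Fin W → ℕ → ℂ, (∀ i n, ‖c i n‖ ≤ 1) →
        ∀ h : Fin W → Fin k → ℕ, (∀ i j, h i j ≤ H) →
        ∀ r : ℕ, r.Prime → (x + H) ^ m < r →
          ({χ : DirichletCharacter ℂ r | ∃ i : Fin W, ∃ S : Finset (Fin k), S.Nonempty ∧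
              (x : ℝ) ^ (1 / 2 + δ) < ‖∑ n ∈ Finset.Icc 1 x, c i n *
                ∏ j ∈ S, χ ((n + h i j : ℕ) : ZMod r)‖}.ncard : ℝ)
            ≤ K * r * (x : ℝ) ^ (-B) :=
  fun k A δ B hA hδ hB => Pool.Agent.H735EL.family k A δ B hA hδ hB

end Pool.Agent.Results.MP_f3f922_nt.FamiliesOfTwists
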